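import Pool.Agent.R128.RobotsMain

set_option autoImplicit false

/-!
# The maximum number of surviving bouncing robots on a cycle is `2⌊(n-1)/3⌋` (MP_6a9d64_co)

`R128Rob.Config n` : configuration of size `n` (home bases in `[0,1)`, initial directions `±1`).
`R128Rob.Run c` : the motion of the robots of the configuration `c` on the circle `ℝ/ℤ`.
`ρ.survivors` : the robots that never die in the motion `ρ`.
`R128Rob.survivorCounts n` : all numbers of survivors of configurations of size `n`.
-/

namespace Pool.Agent.Results.MP_6a9d64_co.MaxSurvivors

open R128Rob

/-- For every `n ≥ 1` every configuration of size `n` has a motion, and the maximum number `s(n)`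
of surviving robots over all configurations of size `n` is `2⌊(n-1)/3⌋`. -/
theorem result (n : ℕ) (hn : 1 ≤ n) :
    (∀ c : Config n, Nonempty (Run c)) ∧
    IsGreatest (survivorCounts n) (2 * ((n - 1) / 3)) :=
  ⟨fun c => run_exists c, isGreatest_survivorCounts hn⟩

end Pool.Agent.Results.MP_6a9d64_co.MaxSurvivors
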